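import Pool.Agent.X65.CC.Poly

/-!
# Deciding whether the circular chromatic number is less than 3 is NP-complete

Problem MP_8cd8c6_lc, Q1. Definitions (`Pool.Agent.X65.CC.Defs`): `IsPQ G p q c` says that `c` is a
`(p, q)`-colouring of `G` with colours `0, ..., p - 1`; `circ G` is the infimum of the `p / q` with
`p ≥ 2 q ≥ 2` for which there is a `(p, q)`-colouring; `CircLtThree M` says that `M` is the
adjacency matrix of a finite simple graph `G` with `circ G < 3`.

Hardness: reduction from monotone not-all-equal satisfiability. In a `(p, q)`-colouring with
`p / q < 3` a pentagon winds round the circle of colours in one of two ways, a square in only one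
way, and a 9-cycle never in the extreme ways. So pentagons joined by a prism wind in the same way,
and three pentagons around a vertex (whose outer cycle has length 9) do not all wind in the same
way. Satisfiable formulas give graphs with an `(8, 3)`-colouring.
-/

set_option autoImplicit false

namespace Pool.Agent.Results.MP_8cd8c6_lc.NPComplete

open Pool.Agent.NPC Pool.Agent.NPC.R671 Pool.Agent.X65.CC

/-- **The problem CIRC<3 is NP-complete.** Moreover, graphs with `χ_c ≤ 8/3` and graphs with
`χ_c ≥ 3` are hard to distinguish: for every `L` in `NP` there is a polynomial-time function which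
maps the words in `L` to graphs of the first kind and the other words to graphs of the second
kind. -/
theorem result :
    InNPP CircLtThree ∧ NPHardP CircLtThree ∧
    ∀ L : Set (List Bool), InNP L → ∃ f : List Bool → List Bool, PolyTime f ∧
      ∀ w, ∃ (n : ℕ) (G : SimpleGraph (Fin n)), f w = bits (adjMatrix G) ∧
        (w ∈ L → circ G ≤ 8 / 3) ∧ (w ∉ L → 3 ≤ circ G) :=
  ⟨inNPP_circ, hardI_circ.toNPHardP, hard_gap⟩

end Pool.Agent.Results.MP_8cd8c6_lc.NPComplete
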